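import Pool.Agent.Helper47.FLG.Alg2

/-!
# Packet FLG-GRW (MP_c98eff_gt): growth of the minimum of the complex sectional curvature
-/

namespace Pool.Agent.Helper46.FLG

open Finset Pool.Agent.Helper47.RFn Pool.Agent.Helper47.FLG

theorem g_GRW (hCL : Goal_CL) (hLN : Goal_LN) (hWI : Goal_WI) (hWQ : Goal_WQ) (hSH : Goal_SH)
    (hCB : Goal_CB) (hFG2 : G_FG2) : G_GRW := by
  intro n hn R g z w hFG hg hm heq
  obtain ⟨_, _, cId, _, cSmul, cSub, cRic, _⟩ := hCL n
  obtain ⟨lQA, lQS, lRA, lRS, _, _, _, _, lRI, _, _, lrA, lrS, lr1⟩ := hLN n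
  obtain ⟨hlam, _, _, _, _, hRic, _⟩ := hFG2 n hn R hFG
  -- the shifted tensor
  set S : T4 n := R + (-g) • Id4 n with hS
  have hR : R = S + g • Id4 n := by
    rw [hS]
    funext a b c d
    simp only [Pi.add_apply, Pi.smul_apply, smul_eq_mul]
    ring
  have hSc : IsCurv S := by
    have h1 := cSub R (g • Id4 n) hFG.1 (cSmul g _ cId)
    have h2 : S = R - g • Id4 n := by
      rw [hS]
      funext a b c d
      simp only [Pi.add_apply, Pi.sub_apply, Pi.smul_apply, smul_eq_mul]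
      ring
    rw [h2]
    exact h1
  have hqS : ∀ z' w', qf S z' w' = qf R z' w' - g * qf (Id4 n) z' w' := by
    intro z' w'
    rw [hS, lQA, lQS]
    ring
  have hC0 : C0 S := by
    refine ⟨hSc, fun z' w' => ?_⟩
    have := hm z' w'
    rw [hqS]
    linarith
  have hz : qf S z w = 0 := by
    rw [hqS, heq]
    ring
  have h1 : 0 ≤ qf (Q S) z w := hWI n S hC0 z w hz
  obtain ⟨_, _, hc3, hc4, _⟩ := hCB n (by omega) S hC0
  -- Ricci curvature of the shifted tensor
  have hRS : ∀ v, rq (Ric S) v = rq (Ric R) v - g * ((n : ℝ) - 1) * nrm v := by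
    intro v
    rw [hS, lRA, lRS, lRI, lrA, lrS, lrS, lr1]
    ring
  set m : ℝ := max 0 (lam R / 16 - ((n : ℝ) - 1) * g) with hmdef
  have hm0 : 0 ≤ m := le_max_left _ _
  have hm1 : lam R / 16 - ((n : ℝ) - 1) * g ≤ m := le_max_right _ _
  have hnn : ∀ v : Fin n → ℝ, 0 ≤ nrm v := fun v => Finset.sum_nonneg (fun i _ => sq_nonneg (v i))
  have hlow : ∀ v, m * nrm v ≤ rq (Ric S) v := by
    intro v
    rcases le_total 0 (lam R / 16 - ((n : ℝ) - 1) * g) with h | h
    · rw [hmdef, max_eq_right h, hRS]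
      have := hRic v
      linarith
    · rw [hmdef, max_eq_left h, zero_mul]
      exact hc3 v
  obtain ⟨hq0, hq1, _⟩ := hWQ n (Ric S) m ((n : ℝ) * lam S) (cRic S hSc).1 hlow hc4 z w
  have hexp : qf (Q R) z w = qf (Q S) z w + 2 * g * qf (wdg (Ric S) 1) z w
      + (((n : ℝ) - 1) * g ^ 2) * qf (Id4 n) z w := by
    have h3 := hSH n S g hSc
    rw [← hR] at h3
    rw [h3, lQA, lQA, lQS, lQS]
  rw [hexp]
  have h2 : 2 * g * (m * qf (Id4 n) z w) ≤ 2 * g * qf (wdg (Ric S) 1) z w :=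
    mul_le_mul_of_nonneg_left hq1 (by linarith)
  have h4 : lam R / 32 ≤ 2 * m + ((n : ℝ) - 1) * g := by linarith
  have h5 : 0 ≤ g * qf (Id4 n) z w := mul_nonneg hg hq0
  have h6 := mul_le_mul_of_nonneg_right h4 h5
  nlinarith [h1, h2, h6]

end Pool.Agent.Helper46.FLG
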